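import Mathlib
import Pool.Agent.helper15.Sub.Multi

namespace Pool.Agent.Results.MP_f86d1f_co.MaxTotalSize

open Module

/-- The Gaussian binomial coefficient, the product of `(q^(n-i) - 1)/(q^(k-i) - 1)` over
`0 ≤ i < k` (the division of the two products is exact). -/
def gaussBinom (q n k : ℕ) : ℕ :=
  (∏ i ∈ Finset.range k, (q ^ (n - i) - 1)) / ∏ i ∈ Finset.range k, (q ^ (k - i) - 1)

/-- The sum of the Gaussian binomial coefficients of `n` over `k` with `s ≤ k ≤ n`. -/
def gaussTail (q n s : ℕ) : ℕ := ∑ k ∈ Finset.Icc s n, gaussBinom q n k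

/-- `A` and `B` are cross `t`-intersecting. -/
def CrossIntersecting {K V : Type} [Field K] [AddCommGroup V] [Module K V] (t : ℕ)
    (A B : Set (Submodule K V)) : Prop :=
  ∀ X ∈ A, ∀ Y ∈ B, t ≤ finrank K (X ⊓ Y : Submodule K V)

/-- The set of all values of `|A_1| + ... + |A_m|` for non-empty pairwise cross `t`-intersecting
families `A_1, ..., A_m` of subspaces of `V`. -/
def totalSizes (K V : Type) [Field K] [AddCommGroup V] [Module K V] (t m : ℕ) : Set ℕ :=
  {s | ∃ A : Fin m → Set (Submodule K V), (∀ i, (A i).Nonempty) ∧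
    (∀ i j, i ≠ j → CrossIntersecting t (A i) (A j)) ∧ s = ∑ i, (A i).ncard}

open Pool.Agent.helper15.Sub in
theorem prod_eq (q : ℕ) (hq : 2 ≤ q) (n k : ℕ) (hk : k ≤ n) :
    ((∏ i ∈ Finset.range k, (q ^ (n - i) - 1) : ℕ) : ℤ) * qf q (n - k) = qf q n := by
  induction k with
  | zero => simp
  | succ k ih =>
    have ih := ih (by omega)
    obtain ⟨m, rfl⟩ : ∃ m, n = k + 1 + m := ⟨n - (k + 1), by omega⟩
    rw [show k + 1 + m - k = m + 1 by omega, qf_succ] at ih
    rw [Finset.prod_range_succ, show k + 1 + m - (k + 1) = m by omega,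
      show k + 1 + m - k = m + 1 by omega]
    have h1 : 1 ≤ q ^ (m + 1) := Nat.one_le_pow _ _ (by omega)
    push_cast [Nat.cast_sub h1] at ih ⊢
    linear_combination ih

open Pool.Agent.helper15.Sub in
theorem gaussBinom_eq (q : ℕ) (hq : 2 ≤ q) (n k : ℕ) : gaussBinom q n k = gb q n k := by
  unfold gaussBinom
  have h3 := prod_eq q hq k k le_rfl
  have h0 : qf q 0 = 1 := by simp [qf]
  rw [Nat.sub_self, h0, mul_one] at h3
  have hpos : 0 < ∏ i ∈ Finset.range k, (q ^ (k - i) - 1) := by
    have := qf_pos hq k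
    rw [← h3] at this
    exact_mod_cast this
  apply Nat.div_eq_of_eq_mul_left hpos
  rcases Nat.lt_or_ge n k with h | h
  · rw [gb_eq_zero q h, zero_mul]
    apply Finset.prod_eq_zero (Finset.mem_range.2 h)
    simp
  · have h1 := gb_mul_qf q n k h
    have h2 := prod_eq q hq n k h
    have hp := qf_pos hq (n - k)
    have : ((∏ i ∈ Finset.range k, (q ^ (n - i) - 1) : ℕ) : ℤ) =
        ((gb q n k * ∏ i ∈ Finset.range k, (q ^ (k - i) - 1) : ℕ) : ℤ) := by
      apply mul_right_cancel₀ hp.ne'
      rw [h2, Nat.cast_mul, h3, ← h1]; ring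
    exact_mod_cast this

open Pool.Agent.helper15.Sub in
theorem gaussTail_eq (q : ℕ) (hq : 2 ≤ q) (n s : ℕ) : gaussTail q n s = tail q n s := by
  unfold gaussTail tail
  apply Finset.sum_congr
  · ext k; simp only [Finset.mem_Icc, Finset.mem_Ico]; omega
  · intro k _; exact gaussBinom_eq q hq n k

open Pool.Agent.helper15.Sub in
/-- The maximum of `|A_1| + ... + |A_m|` over all non-empty pairwise cross `t`-intersecting
families of subspaces of an `n`-dimensional space over a finite field with `q` elements, for all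
`n ≥ t ≥ 1` and `m ≥ 2`. -/
theorem result (K V : Type) [Field K] [Finite K] [AddCommGroup V] [Module K V]
    [FiniteDimensional K V] (q n t m : ℕ) (hq : Nat.card K = q) (hn : finrank K V = n)
    (ht : 1 ≤ t) (htn : t ≤ n) (hm : 2 ≤ m) :
    (∀ d, n + t = 2 * d → IsGreatest (totalSizes K V t m)
      (max (gaussTail q n t + (m - 1)) (m * gaussTail q n d))) ∧
    (∀ d, n + t = 2 * d + 1 → IsGreatest (totalSizes K V t m)
      (max (max (gaussTail q n t + (m - 1)) (gaussBinom q n d + m * gaussTail q n (d + 1)))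
        (m * (gaussTail q n (d + 1) + gaussBinom q (n - 1) d)))) := by
  classical
  haveI : Finite V := Module.finite_of_finite K
  subst hq
  subst hn
  have h2 := two_le_card K
  have main : IsGreatest (totalSizes K V t m) (mx (Nat.card K) (finrank K V) t m) := by
    constructor
    · obtain ⟨A, h1, h2, h3⟩ := lower (K := K) (V := V) t m ht htn hm
      refine ⟨fun i => (A i : Set (Submodule K V)), h1, h2, ?_⟩
      rw [← h3]
      apply Finset.sum_congr rfl
      intro i _
      rw [Set.ncard_coe_finset]
    · rintro s ⟨A, h1, h2, rfl⟩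
      have hfin : ∀ i, (A i).Finite := fun i => Set.toFinite _
      have := upper (K := K) (V := V) t m ht htn hm (fun i => (hfin i).toFinset)
        (fun i => by
          obtain ⟨x, hx⟩ := h1 i
          exact ⟨x, (hfin i).mem_toFinset.2 hx⟩)
        (fun i j hij X hX Y hY => h2 i j hij X ((hfin i).mem_toFinset.1 hX) Y
          ((hfin j).mem_toFinset.1 hY))
      refine le_trans (le_of_eq ?_) this
      apply Finset.sum_congr rfl
      intro i _
      exact Set.ncard_eq_toFinset_card (A i) (hfin i)
  constructor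
  · intro d hd
    unfold mx at main
    rw [if_pos (by omega), show (finrank K V + t) / 2 = d by omega] at main
    rw [gaussTail_eq _ h2, gaussTail_eq _ h2]
    exact main
  · intro d hd
    unfold mx at main
    rw [if_neg (by omega), show (finrank K V + t) / 2 = d by omega] at main
    rw [gaussTail_eq _ h2, gaussTail_eq _ h2, gaussBinom_eq _ h2, gaussBinom_eq _ h2]
    exact main

end Pool.Agent.Results.MP_f86d1f_co.MaxTotalSize
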